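import Pool.Agent.H174.GP.StG
import Pool.Agent.H597.GP174.L1
import Pool.Agent.H828.GP174.L2

set_option autoImplicit false

/-!
# Positivity of the exponent (by helper348)
-/

open MeasureTheory ProbabilityTheory Finset Filter Topology

namespace Pool.Agent.H348.GP174

open Pool.Agent.H174.GP

/-- `f` depends only on the coordinates in `I` -/
def DepF {β : Type*} (I : Finset ℕ) (f : (ℕ → ℝ) → β) : Prop :=
  ∀ ω ω' : ℕ → ℝ, (∀ j ∈ I, ω j = ω' j) → f ω = f ω'

theorem indep_lint (h4 : S_indep) {I J : Finset ℕ} (hd : Disjoint I J) {f g : (ℕ → ℝ) → ENNReal}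
    (hf : Measurable f) (hg : Measurable g) (hfI : DepF I f) (hgJ : DepF J g) :
    ∫⁻ ω, f ω * g ω ∂PP = (∫⁻ ω, f ω ∂PP) * ∫⁻ ω, g ω ∂PP := by
  have hind : IndepFun f g PP := by
    rw [indepFun_iff_measure_inter_preimage_eq_mul]
    intro s t hs ht
    have h := h4 I J (f ⁻¹' s) (g ⁻¹' t) hd (hf hs) (hg ht) (fun ω ω' h hω => by
      show f ω' ∈ s
      rw [← hfI ω ω' h]
      exact hω) (fun ω ω' h hω => by
      show g ω' ∈ t
      rw [← hgJ ω ω' h]
      exact hω)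
    have h2 := congrArg ENNReal.ofReal h
    rw [ENNReal.ofReal_mul measureReal_nonneg, ofReal_measureReal, ofReal_measureReal,
      ofReal_measureReal] at h2
    exact h2
  exact lintegral_mul_eq_lintegral_mul_lintegral_of_indepFun hf hg hind

theorem mgf_one (c : ℝ) (hc : |c| ≤ 1 / 2) (j : ℕ) :
    ∫⁻ ω, ENNReal.ofReal (Real.exp (c * ω j)) ∂PP ≤ ENNReal.ofReal (Real.exp (2 * c ^ 2)) := by
  have h : MeasurePreserving (Function.eval j) PP lap :=
    measurePreserving_eval_infinitePi (fun _ : ℕ => lap) j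
  have h1 : ∫⁻ ω, ENNReal.ofReal (Real.exp (c * ω j)) ∂PP =
      ∫⁻ x, ENNReal.ofReal (Real.exp (c * x)) ∂lap :=
    h.lintegral_comp (f := fun x => ENNReal.ofReal (Real.exp (c * x))) (by fun_prop)
  obtain ⟨hi, he⟩ := Pool.Agent.H828.GP174.gp_l2 c (by linarith)
  rw [h1, ← ofReal_integral_eq_lintegral_ofReal hi
    (Eventually.of_forall fun x => (Real.exp_pos _).le), he]
  apply ENNReal.ofReal_le_ofReal
  have hc2 : c ^ 2 ≤ 1 / 4 := by
    rw [abs_le] at hc
    nlinarith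
  have hc0 : 0 ≤ c ^ 2 := sq_nonneg c
  rw [div_le_iff₀ (by linarith)]
  have h3 := Real.add_one_le_exp (2 * c ^ 2)
  nlinarith

theorem dep_exp_sum (J : Finset ℕ) (c : ℕ → ℝ) :
    DepF J (fun ω : ℕ → ℝ => ENNReal.ofReal (Real.exp (∑ j ∈ J, c j * ω j))) := by
  intro ω ω' h
  have : ∑ j ∈ J, c j * ω j = ∑ j ∈ J, c j * ω' j :=
    Finset.sum_congr rfl (fun j hj => by rw [h j hj])
  show ENNReal.ofReal (Real.exp (∑ j ∈ J, c j * ω j)) =
    ENNReal.ofReal (Real.exp (∑ j ∈ J, c j * ω' j))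
  rw [this]

theorem meas_sum (J : Finset ℕ) (c : ℕ → ℝ) : Measurable fun ω : ℕ → ℝ => ∑ j ∈ J, c j * ω j :=
  Finset.measurable_sum _ (fun j _ => (measurable_pi_apply j).const_mul _)

theorem mgf_sum (h4 : S_indep) (J : Finset ℕ) (c : ℕ → ℝ) (hc : ∀ j ∈ J, |c j| ≤ 1 / 2) :
    ∫⁻ ω, ENNReal.ofReal (Real.exp (∑ j ∈ J, c j * ω j)) ∂PP ≤
      ENNReal.ofReal (Real.exp (2 * ∑ j ∈ J, c j ^ 2)) := by
  induction J using Finset.induction_on with
  | empty => simp
  | insert a s ha ih =>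
    have h1 : ∀ ω : ℕ → ℝ, ENNReal.ofReal (Real.exp (∑ j ∈ insert a s, c j * ω j)) =
        ENNReal.ofReal (Real.exp (c a * ω a)) * ENNReal.ofReal (Real.exp (∑ j ∈ s, c j * ω j)) := by
      intro ω
      rw [Finset.sum_insert ha, Real.exp_add, ENNReal.ofReal_mul (Real.exp_pos _).le]
    simp_rw [h1]
    have hd : Disjoint ({a} : Finset ℕ) s := Finset.disjoint_singleton_left.2 ha
    have hm1 : Measurable fun ω : ℕ → ℝ => ENNReal.ofReal (Real.exp (c a * ω a)) := by fun_prop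
    have hm2 : Measurable fun ω : ℕ → ℝ => ENNReal.ofReal (Real.exp (∑ j ∈ s, c j * ω j)) :=
      (Real.measurable_exp.comp (meas_sum s c)).ennreal_ofReal
    have hd1 : DepF ({a} : Finset ℕ) (fun ω : ℕ → ℝ => ENNReal.ofReal (Real.exp (c a * ω a))) := by
      intro ω ω' h
      show ENNReal.ofReal (Real.exp (c a * ω a)) = ENNReal.ofReal (Real.exp (c a * ω' a))
      rw [h a (Finset.mem_singleton_self a)]
    rw [indep_lint h4 hd hm1 hm2 hd1 (dep_exp_sum s c), Finset.sum_insert ha, mul_add,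
      Real.exp_add, ENNReal.ofReal_mul (Real.exp_pos _).le]
    exact mul_le_mul' (mgf_one (c a) (hc a (Finset.mem_insert_self a s)) a)
      (ih (fun j hj => hc j (Finset.mem_insert_of_mem hj)))

theorem mgf_abs (h4 : S_indep) (J : Finset ℕ) (c : ℕ → ℝ) (hc : ∀ j ∈ J, |c j| ≤ 1 / 2)
    (h2 : ∑ j ∈ J, c j ^ 2 ≤ 1 / 4) :
    ∫⁻ ω, ENNReal.ofReal (Real.exp |∑ j ∈ J, c j * ω j|) ∂PP ≤ 4 := by
  have hm : Measurable fun ω : ℕ → ℝ => ENNReal.ofReal (Real.exp (∑ j ∈ J, c j * ω j)) :=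
    (Real.measurable_exp.comp (meas_sum J c)).ennreal_ofReal
  have hexp : Real.exp (2 * (1 / 4)) ≤ 2 := by
    have h1 : Real.exp (2 * (1 / 4)) ^ 2 = Real.exp 1 := by
      rw [← Real.exp_nat_mul]
      norm_num
    have h3 := Real.exp_one_lt_d9
    have h5 := Real.exp_pos (2 * (1 / 4))
    nlinarith
  have hb : ∀ c' : ℕ → ℝ, (∀ j ∈ J, |c' j| ≤ 1 / 2) → ∑ j ∈ J, c' j ^ 2 ≤ 1 / 4 →
      ∫⁻ ω, ENNReal.ofReal (Real.exp (∑ j ∈ J, c' j * ω j)) ∂PP ≤ 2 := by
    intro c' hc' h2'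
    refine (mgf_sum h4 J c' hc').trans ?_
    have h6 : Real.exp (2 * ∑ j ∈ J, c' j ^ 2) ≤ 2 :=
      (Real.exp_le_exp.2 (by linarith)).trans hexp
    calc ENNReal.ofReal (Real.exp (2 * ∑ j ∈ J, c' j ^ 2)) ≤ ENNReal.ofReal 2 :=
          ENNReal.ofReal_le_ofReal h6
      _ = 2 := by norm_num
  calc ∫⁻ ω, ENNReal.ofReal (Real.exp |∑ j ∈ J, c j * ω j|) ∂PP
      ≤ ∫⁻ ω, (ENNReal.ofReal (Real.exp (∑ j ∈ J, c j * ω j)) +
          ENNReal.ofReal (Real.exp (∑ j ∈ J, (-c j) * ω j))) ∂PP := by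
        apply lintegral_mono
        intro ω
        show ENNReal.ofReal (Real.exp |∑ j ∈ J, c j * ω j|) ≤
          ENNReal.ofReal (Real.exp (∑ j ∈ J, c j * ω j)) +
          ENNReal.ofReal (Real.exp (∑ j ∈ J, (-c j) * ω j))
        rw [← ENNReal.ofReal_add (Real.exp_pos _).le (Real.exp_pos _).le]
        apply ENNReal.ofReal_le_ofReal
        have h7 : ∑ j ∈ J, (-c j) * ω j = -∑ j ∈ J, c j * ω j := by
          rw [← Finset.sum_neg_distrib]
          exact Finset.sum_congr rfl (fun j _ => by ring)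
        rw [h7]
        rcases abs_cases (∑ j ∈ J, c j * ω j) with ⟨h, _⟩ | ⟨h, _⟩
        · rw [h]
          have := Real.exp_pos (-∑ j ∈ J, c j * ω j)
          linarith
        · rw [h]
          have := Real.exp_pos (∑ j ∈ J, c j * ω j)
          linarith
    _ = (∫⁻ ω, ENNReal.ofReal (Real.exp (∑ j ∈ J, c j * ω j)) ∂PP) +
          ∫⁻ ω, ENNReal.ofReal (Real.exp (∑ j ∈ J, (-c j) * ω j)) ∂PP :=
        lintegral_add_left hm _
    _ ≤ 2 + 2 := add_le_add (hb c hc h2) (hb (fun j => -c j) (fun j hj => by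
          show |-c j| ≤ 1 / 2
          rw [abs_neg]
          exact hc j hj) (by
          simp only [neg_sq]
          exact h2))
    _ = 4 := by norm_num

/-- lower deviation of a linear form -/
theorem lin_pz (h3 : S_pz) (J : Finset ℕ) (c : ℕ → ℝ) (hV : 1 / 2 < ∑ j ∈ J, c j ^ 2) :
    1 / 32 ≤ PP.real {ω | ∑ j ∈ J, c j * ω j < -(1 / 2)} := by
  obtain ⟨m2, m4, _, hint, _, _⟩ := Pool.Agent.H597.GP174.gp_l1
  have e2 : ∀ j, (∫ x, ((-c j) * x) ^ 2 ∂lap) = 2 * c j ^ 2 := by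
    intro j
    have : (fun x : ℝ => ((-c j) * x) ^ 2) = fun x => c j ^ 2 * x ^ 2 := by
      funext x
      ring
    rw [this, integral_const_mul, m2]
    ring
  have e4 : ∀ j, (∫ x, ((-c j) * x) ^ 4 ∂lap) = 24 * (c j ^ 2) ^ 2 := by
    intro j
    have : (fun x : ℝ => ((-c j) * x) ^ 4) = fun x => c j ^ 4 * x ^ 4 := by
      funext x
      ring
    rw [this, integral_const_mul, m4]
    ring
  have h := h3 J (fun j x => (-c j) * x) 6 (by norm_num)
    (fun j _ => measurable_const_mul _) (fun j _ x => by ring) (fun j _ => by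
      have : (fun x : ℝ => ((-c j) * x) ^ 4) = fun x => c j ^ 4 * x ^ 4 := by
        funext x
        ring
      show Integrable (fun x : ℝ => ((-c j) * x) ^ 4) lap
      rw [this]
      exact (hint 4).const_mul _) (by
      simp only [e2, e4]
      rw [← Finset.mul_sum, ← Finset.mul_sum]
      have h5 := sum_sq_le_sq_sum_of_nonneg (s := J) (f := fun j => c j ^ 2)
        (fun j _ => sq_nonneg (c j))
      nlinarith)
  simp only [e2] at h
  rw [← Finset.mul_sum] at h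
  have h6 : (9 / 32 : ℝ) / (3 + 6) = 1 / 32 := by norm_num
  rw [h6] at h
  refine h.trans (measureReal_mono ?_ (measure_ne_top _ _))
  intro ω hω
  rw [Set.mem_ofPred_eq] at hω ⊢
  have h7 : ∑ j ∈ J, (-c j) * ω j = -∑ j ∈ J, c j * ω j := by
    rw [← Finset.sum_neg_distrib]
    exact Finset.sum_congr rfl (fun j _ => by ring)
  rw [h7] at hω
  have h8 : 1 < Real.sqrt (2 * ∑ j ∈ J, c j ^ 2) := by
    rw [Real.lt_sqrt (by norm_num)]
    linarith
  linarith

/-! ### the blocks -/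

theorem blk_card (M k : ℕ) :
    (((Finset.Ioc (M ^ (k - 1)) (M ^ k)).card : ℕ) : ℝ) ≤ (M : ℝ) ^ k := by
  rw [Nat.card_Ioc]
  have h : M ^ k - M ^ (k - 1) ≤ M ^ k := Nat.sub_le _ _
  exact_mod_cast h

theorem uk_eq (M k : ℕ) (hk : 1 ≤ k) (ω : ℕ → ℝ) :
    uk M ω k = ∑ j ∈ Finset.Ioc (M ^ (k - 1)) (M ^ k), (1 / Real.sqrt ((M : ℝ) ^ k)) * ω j := by
  unfold uk
  rw [if_neg (by omega), ← Finset.mul_sum, one_div, inv_mul_eq_div]

theorem vk_eq (M L k : ℕ) (ω : ℕ → ℝ) :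
    vk M L ω k = ∑ j ∈ Finset.Ioc (M ^ (k - 1)) (min (M ^ k) L),
      (Real.sqrt ((M : ℝ) ^ (k - 1)) / (j : ℝ)) * ω j := by
  unfold vk
  rw [Finset.mul_sum]
  exact Finset.sum_congr rfl (fun j _ => by ring)

theorem sqrt_ge_one {M : ℕ} (hM : 4 ≤ M) (k : ℕ) : 1 ≤ Real.sqrt ((M : ℝ) ^ k) := by
  rw [Real.one_le_sqrt]
  have : (1 : ℝ) ≤ M := by exact_mod_cast (by omega : 1 ≤ M)
  exact one_le_pow₀ this

theorem uk_mgf (h4 : S_indep) {M : ℕ} (hM : 4 ≤ M) (k : ℕ) :
    ∫⁻ ω, ENNReal.ofReal (Real.exp (|uk M ω k| / 2)) ∂PP ≤ 4 := by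
  rcases Nat.eq_zero_or_pos k with hk | hk
  · subst hk
    have h := mgf_abs h4 {1} (fun _ => 1 / 2) (fun j _ => by norm_num [abs_of_pos]) (by norm_num)
    refine le_trans (le_of_eq ?_) h
    apply lintegral_congr
    intro ω
    rw [Finset.sum_singleton, abs_mul, abs_of_pos (by norm_num : (0 : ℝ) < 1 / 2)]
    unfold uk
    rw [if_pos rfl]
    congr 2
    ring
  · have hs := sqrt_ge_one hM k
    have hs0 : 0 < Real.sqrt ((M : ℝ) ^ k) := by linarith
    have hsq : Real.sqrt ((M : ℝ) ^ k) ^ 2 = (M : ℝ) ^ k := Real.sq_sqrt (by positivity)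
    have h := mgf_abs h4 (Finset.Ioc (M ^ (k - 1)) (M ^ k))
      (fun _ => (1 / 2) * (1 / Real.sqrt ((M : ℝ) ^ k))) (fun j _ => by
        rw [abs_of_pos (by positivity)]
        have : 1 / Real.sqrt ((M : ℝ) ^ k) ≤ 1 := by
          rw [div_le_one hs0]
          exact hs
        linarith) (by
        rw [Finset.sum_const, nsmul_eq_mul]
        have hc := blk_card M k
        have e : ((1 / 2) * (1 / Real.sqrt ((M : ℝ) ^ k))) ^ 2 = 1 / (4 * (M : ℝ) ^ k) := by
          rw [mul_pow, div_pow, div_pow, hsq]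
          field_simp
          norm_num
        rw [e]
        have hp : 0 < (M : ℝ) ^ k := by
          have : (0 : ℝ) < M := by exact_mod_cast (by omega : 0 < M)
          positivity
        rw [mul_one_div, div_le_div_iff₀ (by positivity) (by norm_num)]
        linarith)
    refine le_trans (le_of_eq ?_) h
    apply lintegral_congr
    intro ω
    have e : ∑ j ∈ Finset.Ioc (M ^ (k - 1)) (M ^ k), ((1 / 2) * (1 / Real.sqrt ((M : ℝ) ^ k))) * ω j =
        (1 / 2) * uk M ω k := by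
      rw [uk_eq M k hk, Finset.mul_sum]
      exact Finset.sum_congr rfl (fun j _ => by ring)
    rw [e, abs_mul, abs_of_pos (by norm_num : (0 : ℝ) < 1 / 2)]
    congr 2
    ring

theorem vk_sq {M : ℕ} (hM : 4 ≤ M) (L k : ℕ) :
    ∑ j ∈ Finset.Ioc (M ^ (k - 1)) (min (M ^ k) L),
      (Real.sqrt ((M : ℝ) ^ (k - 1)) / (j : ℝ)) ^ 2 ≤ 1 := by
  have hM0 : (0 : ℝ) < M := by exact_mod_cast (by omega : 0 < M)
  have hp : 0 < (M : ℝ) ^ (k - 1) := by positivity
  rcases Nat.lt_or_ge (min (M ^ k) L) (M ^ (k - 1)) with h | h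
  · rw [Finset.Ioc_eq_empty (by omega), Finset.sum_empty]
    norm_num
  · have h1 := sum_Ioc_inv_sq_le_sub (α := ℝ) (k := M ^ (k - 1)) (n := min (M ^ k) L)
      (pow_ne_zero _ (by omega)) h
    have e : ∑ j ∈ Finset.Ioc (M ^ (k - 1)) (min (M ^ k) L),
        (Real.sqrt ((M : ℝ) ^ (k - 1)) / (j : ℝ)) ^ 2 =
        (M : ℝ) ^ (k - 1) * ∑ j ∈ Finset.Ioc (M ^ (k - 1)) (min (M ^ k) L), ((j : ℝ) ^ 2)⁻¹ := by
      rw [Finset.mul_sum]
      refine Finset.sum_congr rfl (fun j _ => ?_)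
      rw [div_pow, Real.sq_sqrt hp.le, div_eq_mul_inv]
    rw [e]
    have h2 : ∑ j ∈ Finset.Ioc (M ^ (k - 1)) (min (M ^ k) L), ((j : ℝ) ^ 2)⁻¹ ≤
        ((M : ℝ) ^ (k - 1))⁻¹ := by
      refine h1.trans ?_
      have h3 : (0 : ℝ) ≤ (((min (M ^ k) L : ℕ)) : ℝ)⁻¹ := by positivity
      push_cast at h3 ⊢
      linarith
    calc (M : ℝ) ^ (k - 1) * ∑ j ∈ Finset.Ioc (M ^ (k - 1)) (min (M ^ k) L), ((j : ℝ) ^ 2)⁻¹
        ≤ (M : ℝ) ^ (k - 1) * ((M : ℝ) ^ (k - 1))⁻¹ := mul_le_mul_of_nonneg_left h2 hp.le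
      _ = 1 := mul_inv_cancel₀ hp.ne'

theorem vk_mgf (h4 : S_indep) {M : ℕ} (hM : 4 ≤ M) (L k : ℕ) :
    ∫⁻ ω, ENNReal.ofReal (Real.exp (|vk M L ω k| / 2)) ∂PP ≤ 4 := by
  have hM0 : (0 : ℝ) < M := by exact_mod_cast (by omega : 0 < M)
  have hp : 1 ≤ (M : ℝ) ^ (k - 1) := one_le_pow₀ (by exact_mod_cast (by omega : 1 ≤ M))
  have h := mgf_abs h4 (Finset.Ioc (M ^ (k - 1)) (min (M ^ k) L))
    (fun j => (1 / 2) * (Real.sqrt ((M : ℝ) ^ (k - 1)) / (j : ℝ))) (fun j hj => by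
      have hj1 : M ^ (k - 1) < j := (Finset.mem_Ioc.1 hj).1
      have hj2 : (M : ℝ) ^ (k - 1) ≤ j := by exact_mod_cast hj1.le
      have hj0 : (0 : ℝ) < j := by linarith
      rw [abs_of_nonneg (by positivity)]
      have : Real.sqrt ((M : ℝ) ^ (k - 1)) / (j : ℝ) ≤ 1 := by
        rw [div_le_one hj0]
        refine le_trans ?_ hj2
        rw [Real.sqrt_le_left (by linarith)]
        nlinarith
      linarith) (by
      have h1 := vk_sq hM L k
      have e : ∀ j : ℕ, ((1 / 2) * (Real.sqrt ((M : ℝ) ^ (k - 1)) / (j : ℝ))) ^ 2 =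
          (1 / 4) * (Real.sqrt ((M : ℝ) ^ (k - 1)) / (j : ℝ)) ^ 2 := fun j => by ring
      simp only [e]
      rw [← Finset.mul_sum]
      linarith)
  refine le_trans (le_of_eq ?_) h
  apply lintegral_congr
  intro ω
  have e : ∑ j ∈ Finset.Ioc (M ^ (k - 1)) (min (M ^ k) L),
      ((1 / 2) * (Real.sqrt ((M : ℝ) ^ (k - 1)) / (j : ℝ))) * ω j = (1 / 2) * vk M L ω k := by
    rw [vk_eq, Finset.mul_sum]
    exact Finset.sum_congr rfl (fun j _ => by ring)
  rw [e, abs_mul, abs_of_pos (by norm_num : (0 : ℝ) < 1 / 2)]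
  congr 2
  ring

theorem uk_low (h3 : S_pz) {M : ℕ} (hM : 4 ≤ M) (k : ℕ) (hk : 1 ≤ k) :
    1 / 32 ≤ PP.real {ω | uk M ω k < -(1 / 2)} := by
  have h := lin_pz h3 (Finset.Ioc (M ^ (k - 1)) (M ^ k))
    (fun _ => 1 / Real.sqrt ((M : ℝ) ^ k)) (by
      have hM4 : (4 : ℝ) ≤ M := by exact_mod_cast hM
      have hp : 0 < (M : ℝ) ^ (k - 1) := by positivity
      have hsq : Real.sqrt ((M : ℝ) ^ k) ^ 2 = (M : ℝ) ^ k := Real.sq_sqrt (by positivity)
      have hk1 : (M : ℝ) ^ k = (M : ℝ) ^ (k - 1) * M := by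
        rw [← pow_succ]
        congr 1
        omega
      rw [Finset.sum_const, nsmul_eq_mul, Nat.card_Ioc, div_pow, hsq, one_pow,
        Nat.cast_sub (Nat.pow_le_pow_right (by omega) (by omega))]
      push_cast
      rw [hk1, mul_one_div, lt_div_iff₀ (by positivity)]
      nlinarith)
  refine h.trans (le_of_eq ?_)
  congr 1
  ext ω
  rw [Set.mem_ofPred_eq, Set.mem_ofPred_eq, uk_eq M k hk]

theorem inv_sq_ge (a b : ℕ) (hab : a ≤ b) :
    1 / ((a : ℝ) + 1) - 1 / ((b : ℝ) + 1) ≤ ∑ j ∈ Finset.Ioc a b, ((j : ℝ) ^ 2)⁻¹ := by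
  induction b, hab using Nat.le_induction with
  | base => simp
  | succ b hb ih =>
    rw [← Finset.insert_Ioc_right_eq_Ioc_add_one hb, Finset.sum_insert (by simp)]
    have h1 : 1 / ((b : ℝ) + 1) - 1 / (((b + 1 : ℕ) : ℝ) + 1) ≤ ((((b + 1 : ℕ) : ℝ)) ^ 2)⁻¹ := by
      push_cast
      have hb0 : (0 : ℝ) ≤ b := Nat.cast_nonneg b
      rw [div_sub_div _ _ (by positivity) (by positivity), ← one_div,
        div_le_div_iff₀ (by positivity) (by positivity)]
      nlinarith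
    linarith

theorem vk_low (h3 : S_pz) {M : ℕ} (hM : 4 ≤ M) (L k : ℕ) (hk : 2 ≤ k) (hL : M ^ k ≤ L) :
    1 / 32 ≤ PP.real {ω | vk M L ω k < -(1 / 2)} := by
  have h := lin_pz h3 (Finset.Ioc (M ^ (k - 1)) (min (M ^ k) L))
    (fun j => Real.sqrt ((M : ℝ) ^ (k - 1)) / (j : ℝ)) (by
      rw [min_eq_left hL]
      have hM4 : (4 : ℝ) ≤ M := by exact_mod_cast hM
      have hp : 0 < (M : ℝ) ^ (k - 1) := by positivity
      have hp4 : 4 ≤ (M : ℝ) ^ (k - 1) := by
        calc (4 : ℝ) ≤ M := hM4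
          _ = (M : ℝ) ^ 1 := (pow_one _).symm
          _ ≤ (M : ℝ) ^ (k - 1) := pow_le_pow_right₀ (by linarith) (by omega)
      have e : ∑ j ∈ Finset.Ioc (M ^ (k - 1)) (M ^ k),
          (Real.sqrt ((M : ℝ) ^ (k - 1)) / (j : ℝ)) ^ 2 =
          (M : ℝ) ^ (k - 1) * ∑ j ∈ Finset.Ioc (M ^ (k - 1)) (M ^ k), ((j : ℝ) ^ 2)⁻¹ := by
        rw [Finset.mul_sum]
        refine Finset.sum_congr rfl (fun j _ => ?_)
        rw [div_pow, Real.sq_sqrt hp.le, div_eq_mul_inv]
      rw [e]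
      have h1 := inv_sq_ge (M ^ (k - 1)) (M ^ k) (Nat.pow_le_pow_right (by omega) (by omega))
      push_cast at h1
      have hk1 : (M : ℝ) ^ k = (M : ℝ) ^ (k - 1) * M := by
        rw [← pow_succ]
        congr 1
        omega
      rw [hk1] at h1
      have h2 := mul_le_mul_of_nonneg_left h1 hp.le
      refine lt_of_lt_of_le ?_ h2
      have h5 : 4 / 5 ≤ (M : ℝ) ^ (k - 1) * (1 / ((M : ℝ) ^ (k - 1) + 1)) := by
        rw [mul_one_div, div_le_div_iff₀ (by norm_num) (by positivity)]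
        linarith
      have h6 : (M : ℝ) ^ (k - 1) * (1 / ((M : ℝ) ^ (k - 1) * M + 1)) ≤ 1 / 4 := by
        rw [mul_one_div, div_le_div_iff₀ (by positivity) (by norm_num)]
        nlinarith
      rw [mul_sub]
      linarith)
  refine h.trans (le_of_eq ?_)
  congr 1
  ext ω
  rw [Set.mem_ofPred_eq, Set.mem_ofPred_eq, vk_eq]

/-! ### dependence and measurability -/

theorem uk_dep (M k : ℕ) (hk : 1 ≤ k) :
    DepF (Finset.Ioc (M ^ (k - 1)) (M ^ k)) (fun ω : ℕ → ℝ => uk M ω k) := by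
  intro ω ω' h
  show uk M ω k = uk M ω' k
  rw [uk_eq M k hk, uk_eq M k hk]
  exact Finset.sum_congr rfl (fun j hj => by rw [h j hj])

theorem vk_dep (M L k : ℕ) :
    DepF (Finset.Ioc (M ^ (k - 1)) (M ^ k)) (fun ω : ℕ → ℝ => vk M L ω k) := by
  intro ω ω' h
  show vk M L ω k = vk M L ω' k
  rw [vk_eq, vk_eq]
  refine Finset.sum_congr rfl (fun j hj => ?_)
  rw [h j ?_]
  rw [Finset.mem_Ioc] at hj ⊢
  exact ⟨hj.1, hj.2.trans (min_le_left _ _)⟩

theorem uk_meas (M k : ℕ) : Measurable fun ω : ℕ → ℝ => uk M ω k := by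
  rcases Nat.eq_zero_or_pos k with hk | hk
  · subst hk
    have : (fun ω : ℕ → ℝ => uk M ω 0) = fun ω => ω 1 := by
      funext ω
      unfold uk
      rw [if_pos rfl]
    rw [this]
    exact measurable_pi_apply 1
  · have : (fun ω : ℕ → ℝ => uk M ω k) = fun ω =>
        ∑ j ∈ Finset.Ioc (M ^ (k - 1)) (M ^ k), (1 / Real.sqrt ((M : ℝ) ^ k)) * ω j := by
      funext ω
      exact uk_eq M k hk ω
    rw [this]
    exact meas_sum _ (fun _ => 1 / Real.sqrt ((M : ℝ) ^ k))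

theorem vk_meas (M L k : ℕ) : Measurable fun ω : ℕ → ℝ => vk M L ω k := by
  have : (fun ω : ℕ → ℝ => vk M L ω k) = fun ω =>
      ∑ j ∈ Finset.Ioc (M ^ (k - 1)) (min (M ^ k) L),
        (Real.sqrt ((M : ℝ) ^ (k - 1)) / (j : ℝ)) * ω j := by
    funext ω
    exact vk_eq M L k ω
  rw [this]
  exact meas_sum _ (fun j => Real.sqrt ((M : ℝ) ^ (k - 1)) / (j : ℝ))

/-- the sum of the absolute values in a pair of blocks -/
noncomputable def Wp (M L i : ℕ) (ω : ℕ → ℝ) : ℝ :=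
  |uk M ω (2 * i + 2)| + |vk M L ω (2 * i + 2)| + |uk M ω (2 * i + 3)| + |vk M L ω (2 * i + 3)|

/-- the event in a pair of blocks -/
def Ap (M L i : ℕ) : Set (ℕ → ℝ) :=
  {ω | uk M ω (2 * i + 2) < -(1 / 2) ∧ vk M L ω (2 * i + 3) < -(1 / 2)}

open Classical in
/-- its indicator -/
noncomputable def Np (M L i : ℕ) (ω : ℕ → ℝ) : ℝ := if ω ∈ Ap M L i then 1 else 0

theorem Ap_meas (M L i : ℕ) : MeasurableSet (Ap M L i) :=
  (measurableSet_lt (uk_meas M _) measurable_const).inter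
    (measurableSet_lt (vk_meas M L _) measurable_const)

theorem Wp_meas (M L i : ℕ) : Measurable (Wp M L i) := by
  unfold Wp
  have h1 := uk_meas M (2 * i + 2)
  have h2 := vk_meas M L (2 * i + 2)
  have h3 := uk_meas M (2 * i + 3)
  have h4 := vk_meas M L (2 * i + 3)
  exact ((h1.abs.add h2.abs).add h3.abs).add h4.abs

theorem Np_meas (M L i : ℕ) : Measurable (Np M L i) := by
  unfold Np
  exact Measurable.ite (Ap_meas M L i) measurable_const measurable_const

theorem blk_sub1 (M i : ℕ) (hM : 4 ≤ M) : Finset.Ioc (M ^ (2 * i + 1)) (M ^ (2 * i + 2)) ⊆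
    Finset.Ioc (M ^ (2 * i + 1)) (M ^ (2 * i + 3)) :=
  Finset.Ioc_subset_Ioc le_rfl (Nat.pow_le_pow_right (by omega) (by omega))

theorem blk_sub2 (M i : ℕ) (hM : 4 ≤ M) : Finset.Ioc (M ^ (2 * i + 2)) (M ^ (2 * i + 3)) ⊆
    Finset.Ioc (M ^ (2 * i + 1)) (M ^ (2 * i + 3)) :=
  Finset.Ioc_subset_Ioc (Nat.pow_le_pow_right (by omega) (by omega)) le_rfl

theorem pair_dep {M : ℕ} (hM : 4 ≤ M) (L i : ℕ) {ω ω' : ℕ → ℝ}
    (h : ∀ j ∈ Finset.Ioc (M ^ (2 * i + 1)) (M ^ (2 * i + 3)), ω j = ω' j) :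
    Wp M L i ω = Wp M L i ω' ∧ (ω ∈ Ap M L i ↔ ω' ∈ Ap M L i) := by
  have h1 : uk M ω (2 * i + 2) = uk M ω' (2 * i + 2) :=
    uk_dep M (2 * i + 2) (by omega) ω ω' (fun j hj => h j (blk_sub1 M i hM hj))
  have h2 : vk M L ω (2 * i + 2) = vk M L ω' (2 * i + 2) :=
    vk_dep M L (2 * i + 2) ω ω' (fun j hj => h j (blk_sub1 M i hM hj))
  have h3 : uk M ω (2 * i + 3) = uk M ω' (2 * i + 3) :=
    uk_dep M (2 * i + 3) (by omega) ω ω' (fun j hj => h j (blk_sub2 M i hM hj))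
  have h4 : vk M L ω (2 * i + 3) = vk M L ω' (2 * i + 3) :=
    vk_dep M L (2 * i + 3) ω ω' (fun j hj => h j (blk_sub2 M i hM hj))
  constructor
  · unfold Wp
    rw [h1, h2, h3, h4]
  · unfold Ap
    rw [Set.mem_ofPred_eq, Set.mem_ofPred_eq, h1, h4]

/-! ### the pointwise inequality -/

theorem exp_four (a b c d : ℝ) : Real.exp ((a + b + c + d) / 4) ≤
    (Real.exp a + Real.exp b + Real.exp c + Real.exp d) / 4 := by
  have key : ∀ x y : ℝ, Real.exp ((x + y) / 2) ≤ (Real.exp x + Real.exp y) / 2 := by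
    intro x y
    have h1 : Real.exp ((x + y) / 2) = Real.exp (x / 2) * Real.exp (y / 2) := by
      rw [← Real.exp_add]
      congr 1
      ring
    have h2 : Real.exp x = Real.exp (x / 2) ^ 2 := by
      rw [← Real.exp_nat_mul]
      congr 1
      push_cast
      ring
    have h3 : Real.exp y = Real.exp (y / 2) ^ 2 := by
      rw [← Real.exp_nat_mul]
      congr 1
      push_cast
      ring
    rw [h1, h2, h3]
    nlinarith [sq_nonneg (Real.exp (x / 2) - Real.exp (y / 2))]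
  have h1 := key ((a + b) / 2) ((c + d) / 2)
  have h2 := key a b
  have h3 := key c d
  have e : ((a + b) / 2 + (c + d) / 2) / 2 = (a + b + c + d) / 4 := by ring
  rw [e] at h1
  linarith

theorem exp_small {η y : ℝ} (h0 : 0 ≤ η) (h1 : η ≤ 1) :
    Real.exp (η * y) ≤ 1 - η + η * Real.exp y := by
  have h := convexOn_exp.2 (Set.mem_univ y) (Set.mem_univ 0) h0 (by linarith : 0 ≤ 1 - η)
    (by ring : η + (1 - η) = 1)
  simp only [smul_eq_mul, mul_zero, add_zero, Real.exp_zero, mul_one] at h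
  linarith

theorem ptw {e a b c d N : ℝ} (he0 : 0 ≤ e) (he1 : 8 * e ≤ 1) (ha : 0 ≤ a) (hb : 0 ≤ b)
    (hc : 0 ≤ c) (hd : 0 ≤ d) (hN : N = 0 ∨ N = 1) :
    Real.exp (e * (a + b + c + d) - N) + N / 2 ≤
      1 + 2 * e * (Real.exp (a / 2) + Real.exp (b / 2) + Real.exp (c / 2) + Real.exp (d / 2)) := by
  have h1 : Real.exp (e * (a + b + c + d)) ≤ 1 +
      2 * e * (Real.exp (a / 2) + Real.exp (b / 2) + Real.exp (c / 2) + Real.exp (d / 2)) := by
    have h2 := exp_small (η := 8 * e) (y := (a / 2 + b / 2 + c / 2 + d / 2) / 4) (by linarith) he1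
    have e1 : 8 * e * ((a / 2 + b / 2 + c / 2 + d / 2) / 4) = e * (a + b + c + d) := by ring
    rw [e1] at h2
    have h3 := exp_four (a / 2) (b / 2) (c / 2) (d / 2)
    have h4 := mul_le_mul_of_nonneg_left h3 (by linarith : 0 ≤ 8 * e)
    linarith
  rcases hN with hN | hN
  · rw [hN]
    simp only [sub_zero, zero_div, add_zero]
    exact h1
  · rw [hN, Real.exp_sub]
    have h5 : 1 ≤ Real.exp (e * (a + b + c + d)) := Real.one_le_exp (by positivity)
    have h6 : 2 ≤ Real.exp 1 := by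
      have := Real.add_one_le_exp (1 : ℝ)
      linarith
    have h7 : Real.exp (e * (a + b + c + d)) / Real.exp 1 ≤ Real.exp (e * (a + b + c + d)) / 2 :=
      div_le_div_of_nonneg_left (Real.exp_pos _).le (by norm_num) h6
    linarith

/-- expectation of the factor of a pair of blocks -/
theorem pair_lint (h3 : S_pz) (h4 : S_indep) {M : ℕ} (hM : 4 ≤ M) (L i : ℕ)
    (hL : M ^ (2 * i + 3) ≤ L) {e : ℝ} (he0 : 0 ≤ e) (he1 : 8 * e ≤ 1) :
    ∫⁻ ω, ENNReal.ofReal (Real.exp (e * Wp M L i ω - Np M L i ω)) ∂PP ≤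
      ENNReal.ofReal (1 + 32 * e - 1 / 2048) := by
  have hA : 1 / 1024 ≤ PP.real (Ap M L i) := by
    have hdisj : Disjoint (Finset.Ioc (M ^ (2 * i + 2 - 1)) (M ^ (2 * i + 2)))
        (Finset.Ioc (M ^ (2 * i + 3 - 1)) (M ^ (2 * i + 3))) := by
      rw [Finset.disjoint_left]
      intro j h1 h2
      rw [Finset.mem_Ioc] at h1 h2
      have e1 : 2 * i + 3 - 1 = 2 * i + 2 := by omega
      rw [e1] at h2
      omega
    have h := h4 _ _ {ω | uk M ω (2 * i + 2) < -(1 / 2)} {ω | vk M L ω (2 * i + 3) < -(1 / 2)}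
      hdisj (measurableSet_lt (uk_meas M _) measurable_const)
      (measurableSet_lt (vk_meas M L _) measurable_const)
      (fun ω ω' h hω => by
        rw [Set.mem_ofPred_eq] at hω ⊢
        have e2 : uk M ω (2 * i + 2) = uk M ω' (2 * i + 2) :=
          uk_dep M (2 * i + 2) (by omega) ω ω' h
        rw [← e2]
        exact hω)
      (fun ω ω' h hω => by
        rw [Set.mem_ofPred_eq] at hω ⊢
        have e2 : vk M L ω (2 * i + 3) = vk M L ω' (2 * i + 3) :=
          vk_dep M L (2 * i + 3) ω ω' h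
        rw [← e2]
        exact hω)
    have e1 : {ω | uk M ω (2 * i + 2) < -(1 / 2)} ∩ {ω | vk M L ω (2 * i + 3) < -(1 / 2)} =
        Ap M L i := rfl
    rw [e1] at h
    rw [h]
    have h5 := uk_low h3 hM (2 * i + 2) (by omega)
    have h6 := vk_low h3 hM L (2 * i + 3) (by omega) hL
    have h7 := mul_le_mul h5 h6 (by norm_num) (by linarith)
    norm_num at h7 ⊢
    linarith
  have hmX : Measurable fun ω : ℕ → ℝ =>
      ENNReal.ofReal (Real.exp (e * Wp M L i ω - Np M L i ω)) :=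
    (Real.measurable_exp.comp (((Wp_meas M L i).const_mul e).sub (Np_meas M L i))).ennreal_ofReal
  have h5 : ∫⁻ ω, (ENNReal.ofReal (Real.exp (e * Wp M L i ω - Np M L i ω)) +
      ENNReal.ofReal (Np M L i ω / 2)) ∂PP ≤ ENNReal.ofReal (1 + 32 * e) := by
    have hmu : ∀ k, Measurable fun ω : ℕ → ℝ => ENNReal.ofReal (Real.exp (|uk M ω k| / 2)) :=
      fun k => (Real.measurable_exp.comp ((uk_meas M k).abs.div_const 2)).ennreal_ofReal
    have hmv : ∀ k, Measurable fun ω : ℕ → ℝ => ENNReal.ofReal (Real.exp (|vk M L ω k| / 2)) :=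
      fun k => (Real.measurable_exp.comp ((vk_meas M L k).abs.div_const 2)).ennreal_ofReal
    calc ∫⁻ ω, (ENNReal.ofReal (Real.exp (e * Wp M L i ω - Np M L i ω)) +
          ENNReal.ofReal (Np M L i ω / 2)) ∂PP
        ≤ ∫⁻ ω, (1 + ENNReal.ofReal (2 * e) * (ENNReal.ofReal (Real.exp (|uk M ω (2 * i + 2)| / 2)) +
            ENNReal.ofReal (Real.exp (|vk M L ω (2 * i + 2)| / 2)) +
            ENNReal.ofReal (Real.exp (|uk M ω (2 * i + 3)| / 2)) +
            ENNReal.ofReal (Real.exp (|vk M L ω (2 * i + 3)| / 2)))) ∂PP := by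
          apply lintegral_mono
          intro ω
          have hN : Np M L i ω = 0 ∨ Np M L i ω = 1 := by
            unfold Np
            split_ifs
            · exact Or.inr rfl
            · exact Or.inl rfl
          have hN0 : 0 ≤ Np M L i ω := by
            rcases hN with h | h
            · rw [h]
            · rw [h]
              norm_num
          have h6 := ptw he0 he1 (abs_nonneg (uk M ω (2 * i + 2)))
            (abs_nonneg (vk M L ω (2 * i + 2))) (abs_nonneg (uk M ω (2 * i + 3)))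
            (abs_nonneg (vk M L ω (2 * i + 3))) hN
          show ENNReal.ofReal (Real.exp (e * Wp M L i ω - Np M L i ω)) +
            ENNReal.ofReal (Np M L i ω / 2) ≤ 1 + ENNReal.ofReal (2 * e) *
            (ENNReal.ofReal (Real.exp (|uk M ω (2 * i + 2)| / 2)) +
            ENNReal.ofReal (Real.exp (|vk M L ω (2 * i + 2)| / 2)) +
            ENNReal.ofReal (Real.exp (|uk M ω (2 * i + 3)| / 2)) +
            ENNReal.ofReal (Real.exp (|vk M L ω (2 * i + 3)| / 2)))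
          rw [← ENNReal.ofReal_add (Real.exp_pos _).le (by linarith),
            ← ENNReal.ofReal_add (Real.exp_pos _).le (Real.exp_pos _).le,
            ← ENNReal.ofReal_add (by positivity) (Real.exp_pos _).le,
            ← ENNReal.ofReal_add (by positivity) (Real.exp_pos _).le,
            ← ENNReal.ofReal_mul (by linarith), ← ENNReal.ofReal_one,
            ← ENNReal.ofReal_add (by norm_num) (by positivity)]
          exact ENNReal.ofReal_le_ofReal h6
      _ = 1 + ENNReal.ofReal (2 * e) *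
            ((∫⁻ ω, ENNReal.ofReal (Real.exp (|uk M ω (2 * i + 2)| / 2)) ∂PP) +
            (∫⁻ ω, ENNReal.ofReal (Real.exp (|vk M L ω (2 * i + 2)| / 2)) ∂PP) +
            (∫⁻ ω, ENNReal.ofReal (Real.exp (|uk M ω (2 * i + 3)| / 2)) ∂PP) +
            ∫⁻ ω, ENNReal.ofReal (Real.exp (|vk M L ω (2 * i + 3)| / 2)) ∂PP) := by
          have hm4 : Measurable fun ω : ℕ → ℝ =>
              (ENNReal.ofReal (Real.exp (|uk M ω (2 * i + 2)| / 2)) +
              ENNReal.ofReal (Real.exp (|vk M L ω (2 * i + 2)| / 2)) +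
              ENNReal.ofReal (Real.exp (|uk M ω (2 * i + 3)| / 2)) +
              ENNReal.ofReal (Real.exp (|vk M L ω (2 * i + 3)| / 2))) :=
            (((hmu _).add (hmv _)).add (hmu _)).add (hmv _)
          rw [lintegral_add_left measurable_const, lintegral_const, measure_univ, mul_one,
            lintegral_const_mul _ hm4,
            lintegral_add_right _ (hmv _), lintegral_add_right _ (hmu _),
            lintegral_add_right _ (hmv _)]
      _ ≤ 1 + ENNReal.ofReal (2 * e) * (4 + 4 + 4 + 4) := by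
          gcongr
          · exact uk_mgf h4 hM _
          · exact vk_mgf h4 hM L _
          · exact uk_mgf h4 hM _
          · exact vk_mgf h4 hM L _
      _ = ENNReal.ofReal (1 + 32 * e) := by
          have e16 : (4 + 4 + 4 + 4 : ENNReal) = ENNReal.ofReal 16 := by norm_num
          rw [e16, ← ENNReal.ofReal_mul (by linarith), ← ENNReal.ofReal_one,
            ← ENNReal.ofReal_add (by norm_num) (by positivity)]
          congr 1
          ring
  rw [lintegral_add_left hmX] at h5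
  have h6 : ENNReal.ofReal (1 / 2048) ≤ ∫⁻ ω, ENNReal.ofReal (Np M L i ω / 2) ∂PP := by
    have h7 : ∀ ω, ENNReal.ofReal (Np M L i ω / 2) =
        (Ap M L i).indicator (fun _ => ENNReal.ofReal (1 / 2)) ω := by
      intro ω
      unfold Np
      by_cases h : ω ∈ Ap M L i
      · rw [if_pos h, Set.indicator_of_mem h]
      · rw [if_neg h, Set.indicator_of_notMem h, zero_div, ENNReal.ofReal_zero]
    simp_rw [h7]
    rw [lintegral_indicator_const (Ap_meas M L i), ← ofReal_measureReal (μ := PP) (s := Ap M L i),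
      ← ENNReal.ofReal_mul (by norm_num)]
    apply ENNReal.ofReal_le_ofReal
    linarith
  have h8 : (∫⁻ ω, ENNReal.ofReal (Real.exp (e * Wp M L i ω - Np M L i ω)) ∂PP) +
      ENNReal.ofReal (1 / 2048) ≤ ENNReal.ofReal (1 + 32 * e) := (add_le_add_right h6 _).trans h5
  rw [ENNReal.ofReal_sub _ (by norm_num)]
  exact ENNReal.le_sub_of_add_le_right ENNReal.ofReal_ne_top h8

/-! ### the product over the blocks -/

/-- the contribution of the first coordinates -/
noncomputable def Bp (M L : ℕ) (ω : ℕ → ℝ) : ℝ := |uk M ω 0| + |uk M ω 1| + |vk M L ω 1|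

theorem Bp_meas (M L : ℕ) : Measurable (Bp M L) := by
  unfold Bp
  exact ((uk_meas M 0).abs.add (uk_meas M 1).abs).add (vk_meas M L 1).abs

theorem init_lint (h4 : S_indep) {M : ℕ} (hM : 4 ≤ M) (L : ℕ) {e : ℝ}
    (he1 : 8 * e ≤ 1) :
    ∫⁻ ω, ENNReal.ofReal (Real.exp (e * Bp M L ω)) ∂PP ≤ 13 := by
  have hmu : ∀ k, Measurable fun ω : ℕ → ℝ => ENNReal.ofReal (Real.exp (|uk M ω k| / 2)) :=
    fun k => (Real.measurable_exp.comp ((uk_meas M k).abs.div_const 2)).ennreal_ofReal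
  have hmv : ∀ k, Measurable fun ω : ℕ → ℝ => ENNReal.ofReal (Real.exp (|vk M L ω k| / 2)) :=
    fun k => (Real.measurable_exp.comp ((vk_meas M L k).abs.div_const 2)).ennreal_ofReal
  calc ∫⁻ ω, ENNReal.ofReal (Real.exp (e * Bp M L ω)) ∂PP
      ≤ ∫⁻ ω, (ENNReal.ofReal (Real.exp (|uk M ω 0| / 2)) +
          ENNReal.ofReal (Real.exp (|uk M ω 1| / 2)) +
          ENNReal.ofReal (Real.exp (|vk M L ω 1| / 2)) + 1) ∂PP := by
        apply lintegral_mono
        intro ω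
        show ENNReal.ofReal (Real.exp (e * Bp M L ω)) ≤
          ENNReal.ofReal (Real.exp (|uk M ω 0| / 2)) +
          ENNReal.ofReal (Real.exp (|uk M ω 1| / 2)) +
          ENNReal.ofReal (Real.exp (|vk M L ω 1| / 2)) + 1
        rw [← ENNReal.ofReal_add (Real.exp_pos _).le (Real.exp_pos _).le,
          ← ENNReal.ofReal_add (by positivity) (Real.exp_pos _).le, ← ENNReal.ofReal_one,
          ← ENNReal.ofReal_add (by positivity) (by norm_num)]
        apply ENNReal.ofReal_le_ofReal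
        have h1 := exp_four (|uk M ω 0| / 2) (|uk M ω 1| / 2) (|vk M L ω 1| / 2) 0
        have h2 : Real.exp (e * Bp M L ω) ≤
            Real.exp ((|uk M ω 0| / 2 + |uk M ω 1| / 2 + |vk M L ω 1| / 2 + 0) / 4) := by
          apply Real.exp_le_exp.2
          unfold Bp
          have h3 : 0 ≤ |uk M ω 0| + |uk M ω 1| + |vk M L ω 1| := by positivity
          nlinarith
        rw [Real.exp_zero] at h1
        have h5 := Real.exp_pos (|uk M ω 0| / 2)
        have h6 := Real.exp_pos (|uk M ω 1| / 2)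
        have h7 := Real.exp_pos (|vk M L ω 1| / 2)
        linarith
    _ = (∫⁻ ω, ENNReal.ofReal (Real.exp (|uk M ω 0| / 2)) ∂PP) +
          (∫⁻ ω, ENNReal.ofReal (Real.exp (|uk M ω 1| / 2)) ∂PP) +
          (∫⁻ ω, ENNReal.ofReal (Real.exp (|vk M L ω 1| / 2)) ∂PP) + 1 := by
        rw [lintegral_add_right _ measurable_const, lintegral_const, measure_univ, mul_one,
          lintegral_add_right _ (hmv _), lintegral_add_right _ (hmu _)]
    _ ≤ 4 + 4 + 4 + 1 := by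
        gcongr
        · exact uk_mgf h4 hM _
        · exact uk_mgf h4 hM _
        · exact vk_mgf h4 hM L _
    _ = 13 := by norm_num

/-- the exponent up to pair `n` -/
noncomputable def Gp (M L : ℕ) (e : ℝ) (n : ℕ) (ω : ℕ → ℝ) : ℝ :=
  e * Bp M L ω + ∑ i ∈ Finset.range n, (e * Wp M L i ω - Np M L i ω)

theorem Gp_meas (M L : ℕ) (e : ℝ) (n : ℕ) : Measurable (Gp M L e n) := by
  unfold Gp
  exact ((Bp_meas M L).const_mul e).add (Finset.measurable_sum _
    (fun i _ => ((Wp_meas M L i).const_mul e).sub (Np_meas M L i)))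

theorem Gp_dep {M : ℕ} (hM : 4 ≤ M) (L : ℕ) (e : ℝ) (n : ℕ) {ω ω' : ℕ → ℝ}
    (h : ∀ j ∈ Finset.Icc 1 (M ^ (2 * n + 1)), ω j = ω' j) : Gp M L e n ω = Gp M L e n ω' := by
  have hp : ∀ k, 1 ≤ M ^ k := fun k => Nat.one_le_pow _ _ (by omega)
  have h1 : Bp M L ω = Bp M L ω' := by
    have hM1 : M ^ 1 ≤ M ^ (2 * n + 1) := Nat.pow_le_pow_right (by omega) (by omega)
    have a0 : uk M ω 0 = uk M ω' 0 := by
      unfold uk
      rw [if_pos rfl, if_pos rfl]
      exact h 1 (Finset.mem_Icc.2 ⟨le_rfl, hp _⟩)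
    have a1 : uk M ω 1 = uk M ω' 1 := uk_dep M 1 le_rfl ω ω' (fun j hj => by
      rw [Finset.mem_Ioc] at hj
      exact h j (Finset.mem_Icc.2 ⟨by omega, hj.2.trans hM1⟩))
    have a2 : vk M L ω 1 = vk M L ω' 1 := vk_dep M L 1 ω ω' (fun j hj => by
      rw [Finset.mem_Ioc] at hj
      exact h j (Finset.mem_Icc.2 ⟨by omega, hj.2.trans hM1⟩))
    unfold Bp
    rw [a0, a1, a2]
  unfold Gp
  rw [h1]
  congr 1
  refine Finset.sum_congr rfl (fun i hi => ?_)
  rw [Finset.mem_range] at hi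
  have h2 := pair_dep hM L i (ω := ω) (ω' := ω') (fun j hj => by
    rw [Finset.mem_Ioc] at hj
    have h3 : M ^ (2 * i + 3) ≤ M ^ (2 * n + 1) := Nat.pow_le_pow_right (by omega) (by omega)
    exact h j (Finset.mem_Icc.2 ⟨by omega, hj.2.trans h3⟩))
  rw [h2.1]
  congr 1
  unfold Np
  by_cases h3 : ω ∈ Ap M L i
  · rw [if_pos h3, if_pos (h2.2.1 h3)]
  · rw [if_neg h3, if_neg (fun h4 => h3 (h2.2.2 h4))]

theorem prod_lint (h3 : S_pz) (h4 : S_indep) {M : ℕ} (hM : 4 ≤ M) (L : ℕ) {e : ℝ} (he0 : 0 ≤ e)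
    (he1 : 8 * e ≤ 1) (n : ℕ) (hL : M ^ (2 * n + 1) ≤ L) :
    ∫⁻ ω, ENNReal.ofReal (Real.exp (Gp M L e n ω)) ∂PP ≤
      13 * ENNReal.ofReal (1 + 32 * e - 1 / 2048) ^ n := by
  induction n with
  | zero =>
    rw [pow_zero, mul_one]
    refine le_trans (le_of_eq ?_) (init_lint h4 hM L he1)
    apply lintegral_congr
    intro ω
    unfold Gp
    rw [Finset.sum_range_zero, add_zero]
  | succ n ih =>
    have hL1 : M ^ (2 * n + 3) ≤ L := by
      have : 2 * (n + 1) + 1 = 2 * n + 3 := by ring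
      rw [this] at hL
      exact hL
    have hL2 : M ^ (2 * n + 1) ≤ L :=
      (Nat.pow_le_pow_right (by omega) (by omega)).trans hL1
    have h1 : ∀ ω : ℕ → ℝ, ENNReal.ofReal (Real.exp (Gp M L e (n + 1) ω)) =
        ENNReal.ofReal (Real.exp (Gp M L e n ω)) *
          ENNReal.ofReal (Real.exp (e * Wp M L n ω - Np M L n ω)) := by
      intro ω
      rw [← ENNReal.ofReal_mul (Real.exp_pos _).le, ← Real.exp_add]
      congr 2
      unfold Gp
      rw [Finset.sum_range_succ, add_assoc]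
    simp_rw [h1]
    have hd : Disjoint (Finset.Icc 1 (M ^ (2 * n + 1)))
        (Finset.Ioc (M ^ (2 * n + 1)) (M ^ (2 * n + 3))) := by
      rw [Finset.disjoint_left]
      intro j h5 h6
      rw [Finset.mem_Icc] at h5
      rw [Finset.mem_Ioc] at h6
      omega
    have hm1 : Measurable fun ω : ℕ → ℝ => ENNReal.ofReal (Real.exp (Gp M L e n ω)) :=
      (Real.measurable_exp.comp (Gp_meas M L e n)).ennreal_ofReal
    have hm2 : Measurable fun ω : ℕ → ℝ =>
        ENNReal.ofReal (Real.exp (e * Wp M L n ω - Np M L n ω)) :=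
      (Real.measurable_exp.comp
        (((Wp_meas M L n).const_mul e).sub (Np_meas M L n))).ennreal_ofReal
    have hd1 : DepF (Finset.Icc 1 (M ^ (2 * n + 1)))
        (fun ω : ℕ → ℝ => ENNReal.ofReal (Real.exp (Gp M L e n ω))) := by
      intro ω ω' h
      show ENNReal.ofReal (Real.exp (Gp M L e n ω)) = ENNReal.ofReal (Real.exp (Gp M L e n ω'))
      rw [Gp_dep hM L e n h]
    have hd2 : DepF (Finset.Ioc (M ^ (2 * n + 1)) (M ^ (2 * n + 3)))
        (fun ω : ℕ → ℝ => ENNReal.ofReal (Real.exp (e * Wp M L n ω - Np M L n ω))) := by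
      intro ω ω' h
      have h2 := pair_dep hM L n h
      have h5 : Np M L n ω = Np M L n ω' := by
        unfold Np
        by_cases h3 : ω ∈ Ap M L n
        · rw [if_pos h3, if_pos (h2.2.1 h3)]
        · rw [if_neg h3, if_neg (fun h4 => h3 (h2.2.2 h4))]
      show ENNReal.ofReal (Real.exp (e * Wp M L n ω - Np M L n ω)) =
        ENNReal.ofReal (Real.exp (e * Wp M L n ω' - Np M L n ω'))
      rw [h2.1, h5]
    rw [indep_lint h4 hd hm1 hm2 hd1 hd2, pow_succ, ← mul_assoc]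
    exact mul_le_mul' (ih hL2) (pair_lint h3 h4 hM L n hL1 he0 he1)

theorem total_lint (h3 : S_pz) (h4 : S_indep) {M : ℕ} (hM : 4 ≤ M) (L : ℕ) {e : ℝ} (he0 : 0 ≤ e)
    (he1 : 8 * e ≤ 1) (n : ℕ) (hL : M ^ (2 * n + 1) ≤ L) :
    ∫⁻ ω, ENNReal.ofReal (Real.exp (Gp M L e n ω + e * |uk M ω (2 * n + 2)|)) ∂PP ≤
      52 * ENNReal.ofReal (1 + 32 * e - 1 / 2048) ^ n := by
  have h1 : ∀ ω : ℕ → ℝ, ENNReal.ofReal (Real.exp (Gp M L e n ω + e * |uk M ω (2 * n + 2)|)) =
      ENNReal.ofReal (Real.exp (Gp M L e n ω)) *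
        ENNReal.ofReal (Real.exp (e * |uk M ω (2 * n + 2)|)) := by
    intro ω
    rw [← ENNReal.ofReal_mul (Real.exp_pos _).le, ← Real.exp_add]
  simp_rw [h1]
  have hd : Disjoint (Finset.Icc 1 (M ^ (2 * n + 1)))
      (Finset.Ioc (M ^ (2 * n + 2 - 1)) (M ^ (2 * n + 2))) := by
    rw [Finset.disjoint_left]
    intro j h5 h6
    have e1 : 2 * n + 2 - 1 = 2 * n + 1 := by omega
    rw [e1, Finset.mem_Ioc] at h6
    rw [Finset.mem_Icc] at h5
    omega
  have hm1 : Measurable fun ω : ℕ → ℝ => ENNReal.ofReal (Real.exp (Gp M L e n ω)) :=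
    (Real.measurable_exp.comp (Gp_meas M L e n)).ennreal_ofReal
  have hm2 : Measurable fun ω : ℕ → ℝ =>
      ENNReal.ofReal (Real.exp (e * |uk M ω (2 * n + 2)|)) :=
    (Real.measurable_exp.comp ((uk_meas M (2 * n + 2)).abs.const_mul e)).ennreal_ofReal
  have hd1 : DepF (Finset.Icc 1 (M ^ (2 * n + 1)))
      (fun ω : ℕ → ℝ => ENNReal.ofReal (Real.exp (Gp M L e n ω))) := by
    intro ω ω' h
    show ENNReal.ofReal (Real.exp (Gp M L e n ω)) = ENNReal.ofReal (Real.exp (Gp M L e n ω'))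
    rw [Gp_dep hM L e n h]
  have hd2 : DepF (Finset.Ioc (M ^ (2 * n + 2 - 1)) (M ^ (2 * n + 2)))
      (fun ω : ℕ → ℝ => ENNReal.ofReal (Real.exp (e * |uk M ω (2 * n + 2)|))) := by
    intro ω ω' h
    have h2 : uk M ω (2 * n + 2) = uk M ω' (2 * n + 2) :=
      uk_dep M (2 * n + 2) (by omega) ω ω' h
    show ENNReal.ofReal (Real.exp (e * |uk M ω (2 * n + 2)|)) =
      ENNReal.ofReal (Real.exp (e * |uk M ω' (2 * n + 2)|))
    rw [h2]
  rw [indep_lint h4 hd hm1 hm2 hd1 hd2]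
  have h5 : ∫⁻ ω, ENNReal.ofReal (Real.exp (e * |uk M ω (2 * n + 2)|)) ∂PP ≤ 4 := by
    refine le_trans (lintegral_mono (fun ω => ?_)) (uk_mgf h4 hM (2 * n + 2))
    apply ENNReal.ofReal_le_ofReal
    apply Real.exp_le_exp.2
    have h6 := abs_nonneg (uk M ω (2 * n + 2))
    nlinarith
  calc (∫⁻ ω, ENNReal.ofReal (Real.exp (Gp M L e n ω)) ∂PP) *
        ∫⁻ ω, ENNReal.ofReal (Real.exp (e * |uk M ω (2 * n + 2)|)) ∂PP
      ≤ (13 * ENNReal.ofReal (1 + 32 * e - 1 / 2048) ^ n) * 4 :=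
        mul_le_mul' (prod_lint h3 h4 hM L he0 he1 n hL) h5
    _ = 52 * ENNReal.ofReal (1 + 32 * e - 1 / 2048) ^ n := by
        rw [mul_comm, ← mul_assoc]
        norm_num

/-! ### the deterministic part -/

theorem sum_id (a b : ℕ → ℝ) (n : ℕ) : ∑ k ∈ Finset.range (2 * n + 3), (a k + b (k + 1)) =
    (a 0 + a 1 + b 1) + ∑ i ∈ Finset.range n,
      (a (2 * i + 2) + b (2 * i + 2) + a (2 * i + 3) + b (2 * i + 3)) +
      a (2 * n + 2) + b (2 * n + 2) + b (2 * n + 3) := by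
  induction n with
  | zero =>
    simp [Finset.sum_range_succ]
    ring
  | succ n ih =>
    have e1 : 2 * (n + 1) + 3 = 2 * n + 3 + 1 + 1 := by ring
    rw [e1, Finset.sum_range_succ, Finset.sum_range_succ, ih, Finset.sum_range_succ]
    have e2 : 2 * (n + 1) + 2 = 2 * n + 4 := by ring
    rw [e2]
    ring_nf

theorem det_bound (h1 : S_thdet) {M : ℕ} (hM : 4 ≤ M) (n : ℕ) (ω : ℕ → ℝ)
    (hω : ∀ x ∈ Finset.Icc 1 (M ^ (2 * n + 1)), 0 ≤ Ch ω (M ^ (2 * n + 1)) x) :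
    0 ≤ Gp M (M ^ (2 * n + 1)) (2 / Real.sqrt M) n ω +
      (2 / Real.sqrt M) * |uk M ω (2 * n + 2)| := by
  have hp : ∀ k, 1 ≤ M ^ k := fun k => Nat.one_le_pow _ _ (by omega)
  have h := h1 M (2 * n + 1) (M ^ (2 * n + 1)) ω hM (by omega) le_rfl
    (Nat.pow_le_pow_right (by omega) (by omega)) (fun i hi => by
      rw [Finset.mem_Icc] at hi
      exact hω _ (Finset.mem_Icc.2 ⟨hp _, Nat.pow_le_pow_right (by omega) hi.2⟩))
  have e1 : 2 * n + 1 + 2 = 2 * n + 3 := by ring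
  rw [e1, sum_id (fun k => |uk M ω k|) (fun k => |vk M (M ^ (2 * n + 1)) ω k|) n] at h
  have v1 : vk M (M ^ (2 * n + 1)) ω (2 * n + 2) = 0 := by
    rw [vk_eq, Finset.Ioc_eq_empty, Finset.sum_empty]
    have e2 : 2 * n + 2 - 1 = 2 * n + 1 := by omega
    rw [e2]
    have := min_le_right (M ^ (2 * n + 2)) (M ^ (2 * n + 1))
    omega
  have v2 : vk M (M ^ (2 * n + 1)) ω (2 * n + 3) = 0 := by
    rw [vk_eq, Finset.Ioc_eq_empty, Finset.sum_empty]
    have e2 : 2 * n + 3 - 1 = 2 * n + 2 := by omega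
    rw [e2]
    have h2 := min_le_right (M ^ (2 * n + 3)) (M ^ (2 * n + 1))
    have h3 : M ^ (2 * n + 1) ≤ M ^ (2 * n + 2) := Nat.pow_le_pow_right (by omega) (by omega)
    omega
  rw [v1, v2, abs_zero, add_zero, add_zero] at h
  have hcard : ∑ i ∈ Finset.range n, Np M (M ^ (2 * n + 1)) i ω ≤
      (((Finset.Icc 1 (2 * n + 1)).filter (fun i => uk M ω i < -(1 / 2) ∧
        vk M (M ^ (2 * n + 1)) ω (i + 1) < -(1 / 2))).card : ℝ) := by
    classical
    have h2 : ∑ i ∈ Finset.range n, Np M (M ^ (2 * n + 1)) i ω =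
        (((Finset.range n).filter (fun i => ω ∈ Ap M (M ^ (2 * n + 1)) i)).card : ℝ) := by
      unfold Np
      rw [← Finset.sum_boole]
    rw [h2]
    have h3 := Finset.card_le_card_of_injOn
      (s := (Finset.range n).filter (fun i => ω ∈ Ap M (M ^ (2 * n + 1)) i))
      (t := (Finset.Icc 1 (2 * n + 1)).filter (fun i => uk M ω i < -(1 / 2) ∧
        vk M (M ^ (2 * n + 1)) ω (i + 1) < -(1 / 2))) (fun i => 2 * i + 2)
      (fun i hi => by
        have hi' := Finset.mem_filter.1 (Finset.mem_coe.1 hi)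
        rw [Finset.mem_range] at hi'
        have hi1 : 1 ≤ 2 * i + 2 := by omega
        have hi2 : 2 * i + 2 ≤ 2 * n + 1 := by omega
        exact Finset.mem_coe.2 (Finset.mem_filter.2 ⟨Finset.mem_Icc.2 ⟨hi1, hi2⟩, hi'.2⟩))
      (fun i _ j _ hij => by
        have : 2 * i + 2 = 2 * j + 2 := hij
        omega)
    exact_mod_cast h3
  have hsum : ∑ i ∈ Finset.range n, (2 / Real.sqrt M * Wp M (M ^ (2 * n + 1)) i ω -
      Np M (M ^ (2 * n + 1)) i ω) = 2 / Real.sqrt M *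
      (∑ i ∈ Finset.range n, (|uk M ω (2 * i + 2)| + |vk M (M ^ (2 * n + 1)) ω (2 * i + 2)| +
        |uk M ω (2 * i + 3)| + |vk M (M ^ (2 * n + 1)) ω (2 * i + 3)|)) -
      ∑ i ∈ Finset.range n, Np M (M ^ (2 * n + 1)) i ω := by
    rw [Finset.sum_sub_distrib, Finset.mul_sum]
    rfl
  unfold Gp Bp
  rw [hsum]
  have h5 := hcard.trans h
  linarith

theorem uu_bound (h1 : S_thdet) (h3 : S_pz) (h4 : S_indep) {M : ℕ} (hM : 4 ≤ M)
    (hs : Real.sqrt M = 262144) (n : ℕ) :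
    uu (M ^ (2 * n + 1)) ≤ 52 * (4095 / 4096 : ℝ) ^ n := by
  have he : 2 / Real.sqrt M = 1 / 131072 := by
    rw [hs]
    norm_num
  have h5 := total_lint h3 h4 hM (M ^ (2 * n + 1)) (e := 1 / 131072) (by norm_num) (by norm_num)
    n le_rfl
  have hq : (1 + 32 * (1 / 131072) - 1 / 2048 : ℝ) = 4095 / 4096 := by norm_num
  rw [hq] at h5
  have hm : Measurable fun ω : ℕ → ℝ => ENNReal.ofReal
      (Real.exp (Gp M (M ^ (2 * n + 1)) (1 / 131072) n ω + 1 / 131072 * |uk M ω (2 * n + 2)|)) :=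
    (Real.measurable_exp.comp ((Gp_meas M _ _ n).add
      ((uk_meas M (2 * n + 2)).abs.const_mul _))).ennreal_ofReal
  have h6 := mul_meas_ge_le_lintegral (μ := PP) hm 1
  rw [one_mul] at h6
  have h7 : PP {ω | ∀ x ∈ Finset.Icc 1 (M ^ (2 * n + 1)), 0 ≤ Ch ω (M ^ (2 * n + 1)) x} ≤
      52 * ENNReal.ofReal (4095 / 4096) ^ n := by
    refine le_trans (measure_mono ?_) (h6.trans h5)
    intro ω hω
    have h8 := det_bound h1 hM n ω hω
    rw [he] at h8
    show 1 ≤ ENNReal.ofReal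
      (Real.exp (Gp M (M ^ (2 * n + 1)) (1 / 131072) n ω + 1 / 131072 * |uk M ω (2 * n + 2)|))
    rw [← ENNReal.ofReal_one]
    exact ENNReal.ofReal_le_ofReal (Real.one_le_exp h8)
  unfold uu
  rw [measureReal_def]
  have h9 : (52 * ENNReal.ofReal (4095 / 4096) ^ n : ENNReal) =
      ENNReal.ofReal (52 * (4095 / 4096 : ℝ) ^ n) := by
    rw [ENNReal.ofReal_mul (by norm_num), ENNReal.ofReal_pow (by norm_num)]
    norm_num
  rw [h9] at h7
  exact ENNReal.toReal_le_of_le_ofReal (by positivity) h7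

theorem gp_thpos (h1 : S_thdet) (h2 : S_L3) (h3 : S_pz) (h4 : S_indep) (h5 : S_step) :
    Pool.Agent.H174.GP.S_thpos := by
  intro θ hθ
  obtain ⟨M, hM, hs⟩ : ∃ M : ℕ, 4 ≤ M ∧ Real.sqrt M = 262144 := by
    refine ⟨262144 ^ 2, by norm_num, ?_⟩
    rw [Nat.cast_pow]
    have h262 : (0 : ℝ) ≤ ((262144 : ℕ) : ℝ) := Nat.cast_nonneg _
    rw [Real.sqrt_sq h262]
    norm_num
  obtain ⟨c, hc, κ1, hκ1, _, _, _, h6, _⟩ := h5
  have hpos : ∀ L : ℕ, 1 ≤ L → 0 < uu L := by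
    intro L hL
    refine lt_of_lt_of_le ?_ (h6 L hL)
    have : (0 : ℝ) < L := by exact_mod_cast hL
    positivity
  have hM4 : (4 : ℝ) ≤ M := by exact_mod_cast hM
  have hlM : 0 < Real.log M := Real.log_pos (by linarith)
  set a : ℝ := -Real.log (4095 / 4096) with ha
  have ha0 : 0 < a := by
    rw [ha, neg_pos]
    exact Real.log_neg (by norm_num) (by norm_num)
  have hb0 : 0 ≤ Real.log 52 := Real.log_nonneg (by norm_num)
  have htend : Tendsto (fun n : ℕ => M ^ (2 * n + 1)) atTop atTop := by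
    have h7 : Tendsto (fun n : ℕ => 2 * n + 1) atTop atTop := by
      apply tendsto_atTop_mono (fun n => (by omega : n ≤ 2 * n + 1)) tendsto_id
    exact (tendsto_pow_atTop_atTop_of_one_lt (by omega : 1 < M)).comp h7
  have hlim := Tendsto.comp hθ htend
  have hge : a / (6 * Real.log M) ≤ θ := by
    refine ge_of_tendsto hlim ?_
    obtain ⟨n0, hn0⟩ := exists_nat_ge ((a + 6 * Real.log 52) / (4 * a))
    filter_upwards [eventually_ge_atTop n0] with n hn
    show a / (6 * Real.log M) ≤ -Real.log (uu (M ^ (2 * n + 1))) / Real.log ((M ^ (2 * n + 1) : ℕ) : ℝ)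
    have hL1 : 1 ≤ M ^ (2 * n + 1) := Nat.one_le_pow _ _ (by omega)
    have h8 := Real.log_le_log (hpos _ hL1) (uu_bound h1 h3 h4 hM hs n)
    rw [Real.log_mul (by norm_num) (by positivity), Real.log_pow] at h8
    have e1 : Real.log ((M ^ (2 * n + 1) : ℕ) : ℝ) = (2 * n + 1) * Real.log M := by
      push_cast
      rw [Real.log_pow]
      push_cast
      ring
    rw [e1]
    have h9 : (a + 6 * Real.log 52) / (4 * a) ≤ n := hn0.trans (by exact_mod_cast hn)
    rw [div_le_iff₀ (by positivity)] at h9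
    rw [div_le_div_iff₀ (by positivity) (by positivity)]
    have h10 : (n : ℝ) * a - Real.log 52 ≤ -Real.log (uu (M ^ (2 * n + 1))) := by
      rw [ha]
      linarith
    have h11 : a * (2 * n + 1) ≤ 6 * ((n : ℝ) * a - Real.log 52) := by nlinarith
    calc a * ((2 * n + 1) * Real.log M) = (a * (2 * n + 1)) * Real.log M := by ring
      _ ≤ (6 * ((n : ℝ) * a - Real.log 52)) * Real.log M :=
          mul_le_mul_of_nonneg_right h11 hlM.le
      _ ≤ (6 * (-Real.log (uu (M ^ (2 * n + 1))))) * Real.log M :=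
          mul_le_mul_of_nonneg_right (by linarith) hlM.le
      _ = -Real.log (uu (M ^ (2 * n + 1))) * (6 * Real.log M) := by ring
  have : 0 < a / (6 * Real.log M) := by positivity
  linarith

end Pool.Agent.H348.GP174
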